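import Pool.Agent.H.MP_dad4ef_an.A

namespace Pool.Agent.H.MP_895317_an

open Filter Topology Metric Set Complex MeasureTheory Pool.Agent.H.MP_dad4ef_an
open scoped Real ComplexConjugate

theorem inv_an {α : ℂ → ℂ} {U : Set ℂ} (hU : IsOpen U) (hα : AnalyticOnNhd ℂ α U)
    (hi : InjOn α U) : (∀ z ∈ U, 𝓝 (α z) ≤ map α (𝓝 z)) ∧
      AnalyticOnNhd ℂ (Function.invFunOn α U) (α '' U) ∧ ∀ z ∈ U, deriv α z ≠ 0 := by
  have e0 : ∀ z ∈ U, Function.invFunOn α U (α z) = z := hi.leftInvOn_invFunOn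
  have nc : ∀ z ∈ U, ¬ ∀ᶠ y in 𝓝 z, α y = α z := fun z hz h => by
    obtain ⟨y, h1, h2⟩ := (((h.and (hU.eventually_mem hz)).filter_mono
      (nhdsWithin_le_nhds (s := {z}ᶜ))).and self_mem_nhdsWithin).exists
    exact h2 (hi h1.2 hz h1.1)
  have e1 : ∀ z ∈ U, 𝓝 (α z) ≤ map α (𝓝 z) := fun z hz =>
    (hα z hz).eventually_constant_or_nhds_le_map_nhds.resolve_left (nc z hz)
  have e2 : ∀ z ∈ U, Tendsto (Function.invFunOn α U) (𝓝 (α z)) (𝓝 z) :=
    fun z hz => (tendsto_map'_iff.mpr (tendsto_id.congr'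
      ((hU.eventually_mem hz).mono fun y hy => (e0 y hy).symm))).mono_left (e1 z hz)
  have e3 : ∀ z ∈ U, ∀ᶠ y in 𝓝 (α z), y ∈ α '' U := fun z hz =>
    e1 z hz (image_mem_map (hU.mem_nhds hz))
  have e4 : ∀ z ∈ U, ContinuousAt (Function.invFunOn α U) (α z) :=
    fun z hz => by rw [ContinuousAt, e0 z hz]; exact e2 z hz
  have e6 : AnalyticOnNhd ℂ (Function.invFunOn α U) (α '' U) := by
    rintro _ ⟨z, hz, rfl⟩
    refine Complex.analyticAt_of_differentiable_on_punctured_nhds_of_continuousAt ?_ (e4 z hz)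
    have e5 : ∀ᶠ y in 𝓝[≠] z, deriv α y ≠ 0 :=
      (hα z hz).deriv.eventually_eq_zero_or_eventually_ne_zero.resolve_left fun h => by
        obtain ⟨ρ, h0, h1⟩ := Metric.eventually_nhds_iff_ball.1 (h.and (hU.eventually_mem hz))
        exact nc z hz ((isOpen_ball.eventually_mem (mem_ball_self h0)).mono fun y hy =>
          isOpen_ball.is_const_of_deriv_eq_zero (convex_ball z ρ).isPreconnected
            (hα.differentiableOn.mono fun w hw => (h1 w hw).2) (fun w hw => (h1 w hw).1) hy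
            (mem_ball_self h0))
    filter_upwards [self_mem_nhdsWithin, mem_nhdsWithin_of_mem_nhds (e3 z hz),
      mem_nhdsWithin_of_mem_nhds ((e2 z hz).eventually (eventually_nhdsWithin_iff.mp e5))]
    rintro _ h1 ⟨y, hy, rfl⟩ h2
    rw [e0 y hy] at h2
    refine (HasDerivAt.of_local_left_inverse (f := α) (e4 y hy) ?_ (h2 fun e => h1 (congrArg α e))
      ((e3 y hy).mono fun w hw => Function.invFunOn_eq hw)).differentiableAt
    rw [e0 y hy]
    exact (hα y hy).differentiableAt.hasDerivAt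
  refine ⟨e1, e6, fun z hz => ?_⟩
  exact right_ne_zero_of_mul_eq_one
    (((e6 _ (mem_image_of_mem α hz)).differentiableAt.hasDerivAt.comp z
      (hα z hz).differentiableAt.hasDerivAt).unique
      ((hasDerivAt_id z).congr_of_eventuallyEq ((hU.eventually_mem hz).mono e0)))

theorem fps {d : ℕ → ℂ} {g : ℂ → ℂ} (hd : ∀ w, ‖w‖ < 1 → HasSum (fun n => d n * w ^ n) (g w)) :
    HasFPowerSeriesOnBall g (FormalMultilinearSeries.ofScalars ℂ d) 0 1 := by
  refine ⟨ENNReal.le_of_forall_nnreal_lt fun r hr => FormalMultilinearSeries.le_radius_of_summable_norm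
    _ ?_, one_pos, fun {y} hy => ?_⟩
  · have := (hd r (by simpa using hr)).summable.norm
    simpa [FormalMultilinearSeries.ofScalars_norm] using this
  · simpa [FormalMultilinearSeries.ofScalars_apply_eq, mul_comm] using hd y (by
      rwa [← ENNReal.coe_one, Metric.eball_coe, mem_ball_zero_iff] at hy)

theorem uniq {d e : ℕ → ℂ} {g : ℂ → ℂ} (hd : ∀ w, ‖w‖ < 1 → HasSum (fun n => d n * w ^ n) (g w))
    (he : ∀ w, ‖w‖ < 1 → HasSum (fun n => e n * w ^ n) (g w)) : d = e :=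
  FormalMultilinearSeries.ofScalars_series_injective ℂ ℂ
    ((fps hd).hasFPowerSeriesAt.eq_formalMultilinearSeries (fps he).hasFPowerSeriesAt)

noncomputable abbrev HH := lp (fun _ : ℕ => ℂ) 2

noncomputable def ev (f : HH) (z : ℂ) : ℂ := ∑' k, f k * z ^ k

theorem tb (f : HH) (z : ℂ) (k : ℕ) : ‖f k * z ^ k‖ ≤ ‖f‖ * ‖z‖ ^ k := by
  rw [norm_mul, norm_pow]
  exact mul_le_mul_of_nonneg_right (lp.norm_apply_le_norm two_ne_zero f k) (by positivity)

theorem hs (f : HH) (z : ℂ) (hz : ‖z‖ < 1) : HasSum (fun k => f k * z ^ k) (ev f z) :=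
  (Summable.of_norm_bounded ((summable_geometric_of_lt_one (norm_nonneg _) hz).mul_left _)
    (tb f z)).hasSum

theorem ev_an (f : HH) : AnalyticOnNhd ℂ (ev f) (ball 0 1) := by
  have := (fps (hs f)).analyticOnNhd
  rwa [← ENNReal.coe_one, Metric.eball_coe] at this

theorem ev_inj {f g : HH} (h : ∀ z, ‖z‖ < 1 → ev f z = ev g z) : f = g :=
  lp.ext (uniq (hs f) fun w hw => h w hw ▸ hs g w hw)

theorem ev_inj' {f : HH} {a : ℂ} (ha : ‖a‖ < 1) (h : ∃ᶠ z in 𝓝[≠] a, ev f z = 0) : f = 0 :=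
  ev_inj fun z hz => ((ev_an f).eqOn_zero_of_preconnected_of_frequently_eq_zero
    (convex_ball 0 1).isPreconnected (mem_ball_zero_iff.2 ha) h (mem_ball_zero_iff.2 hz)).trans
    (by simp [ev])

noncomputable def evL (z : ℂ) (hz : ‖z‖ < 1) : HH →L[ℂ] ℂ := LinearMap.mkContinuous
  { toFun := fun f => ev f z
    map_add' := fun f g => (hs _ z hz).unique (hcongr ((hs f z hz).add (hs g z hz)) fun n => by
      simp [add_mul])
    map_smul' := fun c f => (hs _ z hz).unique (hcongr ((hs f z hz).mul_left c) fun n => by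
      simp [mul_assoc]) } (1 - ‖z‖)⁻¹ fun f => by
    rw [mul_comm]
    exact tsum_of_norm_bounded ((hasSum_geometric_of_lt_one (norm_nonneg _) hz).mul_left _) (tb f z)

theorem ev_zero (f : HH) : ev f 0 = f 0 := by
  simpa using (hs f 0 (by simp)).unique (hasSum_single 0 fun n hn => by simp [hn])

theorem ev_one (z : ℂ) : ev (lp.single 2 0 1) z = 1 := by
  rw [ev, tsum_eq_single 0 fun n hn => by simp [lp.single_apply, hn]]
  simp

theorem sqs (f : HH) : HasSum (fun k => ‖f k‖ ^ 2) (‖f‖ ^ 2) := by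
  simpa using lp.hasSum_norm (p := 2) (by norm_num) f

theorem sqle (f : HH) (N : ℕ) : ∑ n ∈ Finset.range N, ‖f n‖ ^ 2 ≤ ‖f‖ ^ 2 :=
  sum_le_hasSum _ (fun _ _ => sq_nonneg _) (sqs f)

noncomputable def sh (f : HH) : HH := ⟨fun k => Nat.casesOn k 0 f, memℓp_gen (by
  rw [← summable_nat_add_iff 1]
  simpa using (sqs f).summable)⟩

theorem ev_sh (f : HH) (z : ℂ) (hz : ‖z‖ < 1) : ev (sh f) z = z * ev f z := by
  have h := (hasSum_nat_add_iff' 1).2 (hs (sh f) z hz)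
  have e : (sh f) 0 = 0 := rfl
  rw [Finset.sum_range_one, e, zero_mul, sub_zero] at h
  exact h.unique (hcongr ((hs f z hz).mul_left z) fun n => by
    rw [show (sh f) (n + 1) = f n from rfl]; ring)

theorem lim1 {c M : ℝ} {r0 : ℝ} (h0 : r0 < 1) {F : ℝ → ℝ} (hF : Continuous F) (e : F 1 = c)
    (h : ∀ r, 0 < r → r0 < r → r < 1 → F r ≤ M) : c ≤ M := by
  refine le_of_tendsto (e ▸ (hF.tendsto 1).mono_left (nhdsWithin_le_nhds (s := Iio 1))) ?_
  filter_upwards [Ioo_mem_nhdsLT h0, Ioo_mem_nhdsLT zero_lt_one] with r h1 h2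
  exact h r h2.1 h1.1 h1.2

theorem toL2 {u : ℂ → ℂ} (hu : DifferentiableOn ℂ u (ball 0 1)) {r0 M : ℝ} (h0 : r0 < 1)
    (h : ∀ r, 0 < r → r0 < r → r < 1 → ∫ t in (0 : ℝ)..2 * π, ‖u (circleMap 0 r t)‖ ^ 2 ≤ M) :
    ∃ f : HH, ∀ z, ‖z‖ < 1 → ev f z = u z := by
  have : Summable fun n => ‖co u n‖ ^ 2 := summable_of_sum_range_le (c := (2 * π)⁻¹ * M)
    (fun _ => sq_nonneg _) fun N => lim1 h0 (F := fun r => ∑ n ∈ Finset.range N,
      ‖co u n‖ ^ 2 * r ^ (2 * n)) (by fun_prop) (by simp) fun r a b c =>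
        (bes a c hu N).trans (mul_le_mul_of_nonneg_left (h r a b c) (by positivity))
  exact ⟨⟨co u, memℓp_gen (by simpa using this)⟩, fun z hz => (co_sum hu hz).tsum_eq⟩

theorem maj {a : ℂ} (ha : ‖a‖ < 1) (N : ℕ) : ∀ g : ℕ → ℂ, ∃ G : ℂ → ℂ, Differentiable ℂ G ∧
    (∀ w, ‖w‖ ≤ 1 → ‖∑ k ∈ Finset.range N, g k * w ^ k‖ ^ 2 ≤ (G w).re) ∧
    (G a).re + ‖∑ k ∈ Finset.range N, g k * a ^ k‖ ^ 2 ≤
      (2 + 4 / (1 - ‖a‖ ^ 2)) * ∑ k ∈ Finset.range N, ‖g k‖ ^ 2 := by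
  induction N with
  | zero => exact fun g => ⟨0, by fun_prop, by simp, by simp⟩
  | succ N ih =>
    intro g
    obtain ⟨G, h1, h2, h3⟩ := ih fun k => g (k + 1)
    have e : ∀ w : ℂ, ∑ k ∈ Finset.range (N + 1), g k * w ^ k =
        g 0 + w * ∑ k ∈ Finset.range N, g (k + 1) * w ^ k := fun w => by
      rw [Finset.sum_range_succ', Finset.mul_sum, add_comm, pow_zero, mul_one]
      exact congrArg _ (Finset.sum_congr rfl fun k _ => by ring)
    have e2 : ∀ x y : ℂ, ‖x + y‖ ^ 2 = ‖x‖ ^ 2 + 2 * (conj x * y).re + ‖y‖ ^ 2 := fun x y => by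
      simp only [Complex.sq_norm, normSq_apply, add_re, add_im, mul_re, conj_re, conj_im]; ring
    have e3 : ∀ x : ℂ, (2 * x).re = 2 * x.re := fun x => by simp
    refine ⟨fun w => (‖g 0‖ ^ 2 : ℝ) + 2 * (conj (g 0) *
      (w * ∑ k ∈ Finset.range N, g (k + 1) * w ^ k)) + G w, by fun_prop, fun w hw => ?_, ?_⟩
    · rw [e, e2, norm_mul, mul_pow]
      simp only [add_re, ofReal_re, e3]
      have := mul_le_mul_of_nonneg_right (pow_le_one₀ (n := 2) (norm_nonneg w) hw)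
        (sq_nonneg ‖∑ k ∈ Finset.range N, g (k + 1) * w ^ k‖)
      linarith [h2 w hw]
    · rw [e, e2, norm_mul, mul_pow, Finset.sum_range_succ']
      simp only [add_re, ofReal_re, e3]
      have h4 := re_le_norm (conj (g 0) * (a * ∑ k ∈ Finset.range N, g (k + 1) * a ^ k))
      rw [norm_mul, norm_mul, RCLike.norm_conj] at h4
      generalize ‖∑ k ∈ Finset.range N, g (k + 1) * a ^ k‖ = s at *
      have h5 : 0 < 1 - ‖a‖ ^ 2 := by nlinarith [norm_nonneg a]
      obtain ⟨t, ht⟩ : ∃ t, t = ‖g 0‖ / (1 - ‖a‖ ^ 2) := ⟨_, rfl⟩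
      have h6 : ‖g 0‖ = t * (1 - ‖a‖ ^ 2) := by rw [ht]; field_simp
      have h7 : 4 / (1 - ‖a‖ ^ 2) * ‖g 0‖ ^ 2 = 4 * t ^ 2 * (1 - ‖a‖ ^ 2) := by
        rw [h6]; field_simp
      have h8 : 4 * (‖g 0‖ * (‖a‖ * s)) ≤ (1 - ‖a‖ ^ 2) * s ^ 2 + 4 * t ^ 2 * (1 - ‖a‖ ^ 2) := by
        rw [h6]
        nlinarith [mul_nonneg h5.le (sq_nonneg (s - 2 * t * ‖a‖)),
          mul_nonneg (mul_nonneg h5.le h5.le) (sq_nonneg t)]
      rw [mul_add]
      linarith

theorem litt (g : HH) {ψ : ℂ → ℂ} (hψ : DifferentiableOn ℂ ψ (ball 0 1))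
    (hm : ∀ w, ‖w‖ < 1 → ‖ψ w‖ < 1) {r : ℝ} (h0 : 0 < r) (h1 : r < 1) :
    ∫ t in (0 : ℝ)..2 * π, ‖ev g (ψ (circleMap 0 r t))‖ ^ 2 ≤
      2 * π * ((2 + 4 / (1 - ‖ψ 0‖ ^ 2)) * ‖g‖ ^ 2) := by
  have hb : ∀ t, ‖circleMap 0 r t‖ < 1 := fun t => by simpa [abs_of_pos h0] using h1
  have hc : Continuous fun t => ψ (circleMap 0 r t) :=
    hψ.continuousOn.comp_continuous (continuous_circleMap 0 r) fun t => mem_ball_zero_iff.2 (hb t)
  obtain ⟨t0, -, ht0⟩ := isCompact_uIcc.exists_isMaxOn (nonempty_uIcc (a := (0 : ℝ)) (b := 2 * π))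
    hc.norm.continuousOn
  have sm := (summable_geometric_of_lt_one (norm_nonneg _) (hm _ (hb t0))).mul_left ‖g‖
  have hN : ∀ N, Continuous fun θ => ‖∑ k ∈ Finset.range N, g k * ψ (circleMap 0 r θ) ^ k‖ ^ 2 :=
    fun N => (continuous_finsetSum _ fun k _ => continuous_const.mul (hc.pow k)).norm.pow 2
  have t := intervalIntegral.tendsto_integral_filter_of_dominated_convergence (μ := volume)
    (a := 0) (b := 2 * π) (l := atTop) (F := fun N (θ : ℝ) =>
      ‖∑ k ∈ Finset.range N, g k * ψ (circleMap 0 r θ) ^ k‖ ^ 2)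
    (f := fun θ => ‖ev g (ψ (circleMap 0 r θ))‖ ^ 2)
    (fun _ => (∑' n, ‖g‖ * ‖ψ (circleMap 0 r t0)‖ ^ n) ^ 2)
    (.of_forall fun N => (hN N).aestronglyMeasurable)
    (.of_forall fun N => .of_forall fun θ hθ => by
      rw [norm_pow, norm_norm]
      refine pow_le_pow_left₀ (norm_nonneg _) ((norm_sum_le _ _).trans (le_trans ?_
        (sm.sum_le_tsum (Finset.range N) fun _ _ => by positivity))) 2
      exact Finset.sum_le_sum fun k _ => (tb g _ k).trans (mul_le_mul_of_nonneg_left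
        (pow_le_pow_left₀ (norm_nonneg _) (ht0 (uIoc_subset_uIcc hθ)) k) (norm_nonneg _)))
    intervalIntegrable_const (.of_forall fun θ _ =>
      (hs g _ (hm _ (hb θ))).tendsto_sum_nat.norm.pow 2)
  refine le_of_tendsto' t fun N => ?_
  have ha := hm 0 (by simp)
  obtain ⟨G, a1, a2, a3⟩ := maj ha N g
  have hd : DiffContOnCl ℂ (fun w => G (ψ w)) (ball 0 |r|) :=
    (a1.comp_differentiableOn hψ).diffContOnCl_ball (closedBall_subset_ball (by
      rwa [abs_of_pos h0]))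
  have h2 := hd.circleAverage
  rw [Real.circleAverage_def, inv_smul_eq_iff₀ (by positivity)] at h2
  have hi : IntervalIntegrable (fun t => G (ψ (circleMap 0 r t))) volume 0 (2 * π) :=
    (a1.continuous.comp hc).intervalIntegrable _ _
  have h3 := reCLM.intervalIntegral_comp_comm hi
  rw [h2] at h3
  refine (intervalIntegral.integral_mono_on (by positivity) ((hN N).intervalIntegrable
    _ _) ((reCLM.continuous.comp (a1.continuous.comp hc)).intervalIntegrable _ _)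
    fun t _ => a2 _ (hm _ (hb t)).le).trans (h3.trans_le ?_)
  rw [map_smul, smul_eq_mul, reCLM_apply]
  have h5 : 0 < 1 - ‖ψ 0‖ ^ 2 := by nlinarith [norm_nonneg (ψ 0)]
  refine mul_le_mul_of_nonneg_left (le_trans ?_ (mul_le_mul_of_nonneg_left (sqle g N)
    (by positivity))) (by positivity)
  linarith [sq_nonneg ‖∑ k ∈ Finset.range N, g k * ψ 0 ^ k‖]

theorem noadj {T : HH →L[ℂ] HH} {x : HH} (hx : DenseRange fun n : ℕ => (T ^ n) x) (L : HH →L[ℂ] ℂ)
    (c : ℂ) (hL : ∀ f, L (T f) = c * L f) (f : HH) : L f = 0 := by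
  by_contra hf
  have e : ∀ n : ℕ, ‖L ((T ^ n) x)‖ = ‖c‖ ^ n * ‖L x‖ := fun n => by
    induction n with
    | zero => simp
    | succ n ih => rw [pow_succ', mul_apply_eq_comp, hL, norm_mul, ih]; ring
  have h1 : ¬ ∀ n : ℕ, ‖L ((T ^ n) x)‖ ≤ ‖L x‖ := fun h => by
    have := hx.induction_on (p := fun g => ‖L g‖ ≤ ‖L x‖) ((((‖L x‖ + 1 : ℝ) : ℂ) / L f) • f)
      (isClosed_le (by fun_prop) continuous_const) h
    rw [map_smul, smul_eq_mul, div_mul_cancel₀ _ hf, norm_real, Real.norm_of_nonneg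
      (by positivity)] at this
    linarith
  rcases le_total ‖c‖ 1 with h | h
  · exact h1 fun n => e n ▸ mul_le_of_le_one_left (norm_nonneg _) (pow_le_one₀ (norm_nonneg _) h)
  · have := hx.induction_on (p := fun g => ‖L x‖ ≤ ‖L g‖) 0
      (isClosed_le continuous_const (by fun_prop)) fun n =>
        e n ▸ le_mul_of_one_le_left (norm_nonneg _) (one_le_pow₀ h)
    rw [map_zero, norm_zero] at this
    exact h1 fun n => by rw [e, le_antisymm this (norm_nonneg _), mul_zero]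

end Pool.Agent.H.MP_895317_an
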