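import Pool.Agent.H.MP_895317_an.A

namespace Pool.Agent.H.MP_895317_an

open Filter Topology Metric Set Complex MeasureTheory Pool.Agent.H.MP_dad4ef_an
open scoped Real ComplexConjugate

variable {γ : ℂ} {φ : ℂ → ℂ} {T : HH →L[ℂ] HH}

theorem shift_id (f : HH) (z : ℂ) (hz : ‖z‖ < 1) :
    z * ∑' k, f (k + 1) * z ^ k = ev f z - f 0 := by
  have h := (hasSum_nat_add_iff' 1).2 (hs f z hz)
  rw [Finset.sum_range_one, pow_zero, mul_one] at h
  rw [← tsum_mul_left, ← h.tsum_eq]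
  exact tsum_congr fun k => by ring

theorem cf (f : HH) (c : ℂ) (g : HH) : (c • f - g) 0 = c * f 0 - g 0 := rfl

section
variable (hT : ∀ f z, ‖z‖ < 1 → z * ev (T f) z = (γ + z * φ z) * ev f z - γ * f 0)
include hT

theorem op_id (l : ℂ) (f : HH) (z : ℂ) (hz : ‖z‖ < 1) :
    z * ev ((algebraMap ℂ (HH →L[ℂ] HH) l - T) f) z =
      γ * f 0 - (γ + z * φ z - l * z) * ev f z := by
  have : ev ((algebraMap ℂ (HH →L[ℂ] HH) l - T) f) z = l * ev f z - ev (T f) z := by
    change evL z hz (l • f - T f) = l * evL z hz f - evL z hz (T f)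
    rw [map_sub, map_smul, smul_eq_mul]
  rw [this, mul_sub, hT f z hz]; ring

theorem cancel {f g : HH} (h : ∀ z, ‖z‖ < 1 → z * ev f z = z * ev g z) : f = g :=
  sub_eq_zero.1 (ev_inj' (a := 0) (by simp) (Eventually.frequently (by
    filter_upwards [self_mem_nhdsWithin, mem_nhdsWithin_of_mem_nhds (ball_mem_nhds 0 one_pos)]
      with z h0 h1
    have hz := mem_ball_zero_iff.1 h1
    change evL z hz (f - g) = 0
    rw [map_sub, sub_eq_zero]
    exact mul_left_cancel₀ h0 (h z hz))))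

theorem in_spec (hγ : γ ≠ 0) (l : ℂ) (hl : l ∉ (fun z => γ / z + φ z) '' (ball 0 1 \ {0})) :
    l ∈ spectrum ℂ T := by
  intro hu
  obtain ⟨u, hu⟩ := hu
  obtain ⟨R, hR⟩ : ∃ R : HH →L[ℂ] HH, R = ↑u⁻¹ := ⟨_, rfl⟩
  have r1 : ∀ f, R ((algebraMap ℂ (HH →L[ℂ] HH) l - T) f) = f := fun f => by
    rw [← hu, hR, ← mul_apply_eq_comp, Units.inv_mul]; rfl
  have r2 : ∀ f, (algebraMap ℂ (HH →L[ℂ] HH) l - T) (R f) = f := fun f => by
    rw [← hu, hR, ← mul_apply_eq_comp, Units.mul_inv]; rfl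
  obtain ⟨L, hL⟩ : ∃ L : HH →L[ℂ] ℂ, ∀ g, L g = γ * R g 0 :=
    ⟨γ • (evL 0 (by simp)).comp R, fun g => by
      change γ * ev (R g) 0 = _
      rw [ev_zero]⟩
  obtain ⟨a, ha⟩ : ∃ a, a = L (lp.single 2 0 1) := ⟨_, rfl⟩
  have h1 : ∀ g, L (sh g) = a * L g := fun g => by
    have e : (algebraMap ℂ (HH →L[ℂ] HH) l - T) (sh (R g)) = sh g - L g • lp.single 2 0 1 :=
      cancel hT fun z hz => by
        have k := op_id hT l (R g) z hz
        rw [r2, ← hL] at k
        rw [op_id hT l _ z hz, ev_sh _ z hz, show (sh (R g)) 0 = 0 from rfl]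
        change _ = z * evL z hz _
        rw [map_sub, map_smul]
        change _ = z * (ev _ z - L g * ev _ z)
        rw [ev_sh _ z hz, ev_one]
        linear_combination -z * k
    have e2 := hL ((algebraMap ℂ (HH →L[ℂ] HH) l - T) (sh (R g)))
    rw [r1, e, map_sub, map_smul, ← ha, show (sh (R g)) 0 = 0 from rfl, smul_eq_mul] at e2
    linear_combination e2
  have h2 : ∀ n : ℕ, L (lp.single 2 n 1) = a ^ (n + 1) := fun n => by
    induction n with
    | zero => simp [ha]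
    | succ n ih =>
      have : (lp.single 2 (n + 1) 1 : HH) = sh (lp.single 2 n 1) := lp.ext (funext fun k => by
        cases k with
        | zero => simp [sh, lp.single_apply]
        | succ k => simp [sh, lp.single_apply, Pi.single_apply])
      rw [this, h1, ih]; ring
  have h3 : ∀ g : HH, HasSum (fun n => g n * a ^ (n + 1)) (L g) := fun g =>
    hcongr (L.hasSum (lp.hasSum_single (by norm_num) g)) fun n => by
      rw [← h2, ← smul_eq_mul, ← map_smul, ← lp.single_smul, smul_eq_mul, mul_one]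
  have h4 : ‖a‖ < 1 := by
    by_contra h
    have := (h3 ⟨fun n => 1 / ((n + 1 : ℕ) : ℂ), memℓp_gen (by
      simpa [-Nat.cast_add] using (summable_nat_add_iff 1).2
        (Real.summable_nat_pow_inv.2 one_lt_two))⟩).summable.norm
    refine Real.not_summable_one_div_natCast ((summable_nat_add_iff 1).1 (this.of_nonneg_of_le
      (fun n => by positivity) fun n => ?_))
    rw [norm_mul, norm_pow]
    refine le_trans (le_of_eq ?_) (le_mul_of_one_le_right (norm_nonneg _)
      (one_le_pow₀ (not_lt.1 h)))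
    simp [-Nat.cast_add]
  have h5 : ∀ g, L g = a * ev g a := fun g =>
    (h3 g).unique (hcongr ((hs g a h4).mul_left a) fun n => by ring)
  have h6 := op_id hT l (lp.single 2 0 1) a h4
  rw [← h5, hL, r1, ev_one, mul_one, eq_comm, sub_eq_self] at h6
  have h7 : a ≠ 0 := fun h => hγ (by simpa [h] using h6)
  exact hl ⟨a, ⟨mem_ball_zero_iff.2 h4, h7⟩, by field_simp; linear_combination h6⟩

variable (hφ : DifferentiableOn ℂ φ (ball 0 1))
  (hi : InjOn (fun z => γ / z + φ z) (ball 0 1 \ {0}))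
include hφ hi

omit hT hi in
theorem an : AnalyticOnNhd ℂ (fun z => γ / z + φ z) (ball 0 1 \ {0}) := fun z hz =>
  (analyticAt_const.div analyticAt_id hz.2).add (hφ.analyticOnNhd isOpen_ball z hz.1)

theorem not_spec (hγ : γ ≠ 0) {a : ℂ} (ha : a ∈ ball (0 : ℂ) 1 \ {0}) :
    γ / a + φ a ∉ spectrum ℂ T := by
  obtain ⟨i1, -, i3⟩ := inv_an (isOpen_ball.sdiff isClosed_singleton) (an hφ) hi
  obtain ⟨l, hl⟩ : ∃ l, l = γ / a + φ a := ⟨_, rfl⟩
  obtain ⟨h, hh⟩ : ∃ h : ℂ → ℂ, h = fun z => γ + z * φ z - l * z := ⟨_, rfl⟩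
  have a1 := mem_ball_zero_iff.1 ha.1
  have a0 : a ≠ 0 := ha.2
  have e1 : ∀ z, z ≠ 0 → h z = z * (γ / z + φ z - l) := fun z hz => by rw [hh]; field_simp
  have e2 : h a = 0 := by rw [e1 a a0, hl, sub_self, mul_zero]
  have e3 : ∀ z, ‖z‖ < 1 → z ≠ a → h z ≠ 0 := fun z h1 h2 h3 => by
    by_cases h0 : z = 0
    · exact hγ (by simpa [hh, h0] using h3)
    · rw [e1 z h0, mul_eq_zero, sub_eq_zero, hl] at h3
      exact h2 (hi ⟨mem_ball_zero_iff.2 h1, h0⟩ ha (h3.resolve_left h0))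
  have op : ∀ f z, ‖z‖ < 1 → z * ev ((algebraMap ℂ (HH →L[ℂ] HH) l - T) f) z =
      γ * f 0 - h z * ev f z := fun f z hz => by rw [op_id hT l f z hz, hh]
  have hd : DifferentiableOn ℂ h (ball 0 1) := by rw [hh]; fun_prop
  have e4 : deriv h a ≠ 0 := by
    have k := ((hasDerivAt_id a).mul ((an hφ a ha).differentiableAt.hasDerivAt.sub_const l)
      ).congr_of_eventuallyEq (f₁ := h) ((eventually_ne_nhds a0).mono e1)
    rw [k.deriv, ← hl, sub_self, mul_zero, zero_add]
    exact mul_ne_zero a0 (i3 a ha)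
  rw [← hl, spectrum.notMem_iff, ContinuousLinearMap.isUnit_iff_bijective]
  refine ⟨(injective_iff_map_eq_zero _).2 fun f hf => ev_inj' a1 (Eventually.frequently ?_),
    fun g => ?_⟩
  · have k : ∀ z, ‖z‖ < 1 → γ * f 0 = h z * ev f z := fun z hz => by
      have := op f z hz
      rw [hf, show ev 0 z = 0 from (evL z hz).map_zero] at this
      linear_combination -this
    filter_upwards [self_mem_nhdsWithin, mem_nhdsWithin_of_mem_nhds (isOpen_ball.mem_nhds ha.1)]
      with z h0 h1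
    have k1 := k z (mem_ball_zero_iff.1 h1)
    rw [k a a1, e2, zero_mul] at k1
    exact (mul_eq_zero.1 k1.symm).resolve_left (e3 z (mem_ball_zero_iff.1 h1) h0)
  obtain ⟨r0, r1, r2⟩ := exists_between a1
  obtain ⟨δ, d0, d1⟩ := Metric.mem_nhds_iff.1 (i1 a ha (image_mem_map (inter_mem
    (isOpen_ball.mem_nhds (mem_ball_zero_iff.2 r1)) (isOpen_compl_singleton.mem_nhds a0))))
  have p0 : 0 < r0 := (norm_nonneg a).trans_lt r1
  have e5 : ∀ z, r0 < ‖z‖ → ‖z‖ < 1 → r0 * δ ≤ ‖h z‖ := fun z h1 h2 => by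
    have h0 : z ≠ 0 := norm_pos_iff.1 (p0.trans h1)
    rw [e1 z h0, norm_mul]
    refine mul_le_mul h1.le (not_lt.1 fun k => ?_) d0.le (norm_nonneg _)
    obtain ⟨w, w1, w2⟩ := d1 (mem_ball_iff_norm.2 (hl ▸ k))
    have := hi ⟨ball_subset_ball r2.le w1.1, w1.2⟩ ⟨mem_ball_zero_iff.2 h2, h0⟩ w2
    exact absurd (this ▸ mem_ball_zero_iff.1 w1.1) (not_lt.2 h1.le)
  have m := isOpen_ball.mem_nhds ha.1
  have gd : DifferentiableOn ℂ (fun z => z * ev g z) (ball 0 1) :=
    differentiableOn_id.mul (ev_an g).differentiableOn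
  have e6 : ∀ z, ‖z‖ < 1 → dslope h a z ≠ 0 := fun z hz => by
    by_cases k : z = a
    · rwa [k, dslope_same]
    · rw [dslope_of_ne _ k, slope_def_field, e2, sub_zero]
      exact div_ne_zero (e3 z hz k) (sub_ne_zero.2 k)
  obtain ⟨u, hu⟩ : ∃ u : ℂ → ℂ, u = fun z => -(dslope (fun z => z * ev g z) a z / dslope h a z) :=
    ⟨_, rfl⟩
  have e7 : ∀ z, ‖z‖ < 1 → h z * u z = a * ev g a - z * ev g z := fun z hz => by
    have k1 := sub_smul_dslope h a z
    have k2 := sub_smul_dslope (fun z => z * ev g z) a z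
    have k3 := e6 z hz
    rw [e2, sub_zero, smul_eq_mul] at k1
    rw [smul_eq_mul] at k2
    rw [hu, ← k1]
    field_simp
    linear_combination -k2
  obtain ⟨f, hf⟩ := toL2 (u := u) (hu ▸ (((differentiableOn_dslope m).2 gd).div
    ((differentiableOn_dslope m).2 hd) fun z hz => e6 z (mem_ball_zero_iff.1 hz)).neg) r2
    (M := (r0 * δ)⁻¹ ^ 2 * (2 * (2 * π * ‖g‖ ^ 2) + 2 * π * (2 * ‖a * ev g a‖ ^ 2)))
    fun r b0 b1 b2 => by
      have hb : ∀ t, ‖circleMap 0 r t‖ = r := fun t => by simp [abs_of_pos b0]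
      have hc : ∀ {v : ℂ → ℂ}, DifferentiableOn ℂ v (ball 0 1) →
          Continuous fun t => ‖v (circleMap 0 r t)‖ ^ 2 := fun hv =>
        (hv.continuousOn.comp_continuous (continuous_circleMap 0 r) fun t =>
          mem_ball_zero_iff.2 (by rwa [hb])).norm.pow 2
      have c1 := hc (ev_an g).differentiableOn
      refine (intervalIntegral.integral_mono_on (g := fun t => (r0 * δ)⁻¹ ^ 2 *
        (2 * ‖ev g (circleMap 0 r t)‖ ^ 2 + 2 * ‖a * ev g a‖ ^ 2)) (by positivity)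
        ((hc (hu ▸ (((differentiableOn_dslope m).2 gd).div ((differentiableOn_dslope m).2 hd)
          fun z hz => e6 z (mem_ball_zero_iff.1 hz)).neg)).intervalIntegrable _ _)
        (Continuous.intervalIntegrable (by fun_prop) _ _) fun t _ => ?_).trans ?_
      · have k := congrArg norm (e7 (circleMap 0 r t) (by rwa [hb]))
        have k2 := e5 (circleMap 0 r t) (by rwa [hb]) (by rwa [hb])
        have k3 := norm_sub_le (a * ev g a) (circleMap 0 r t * ev g (circleMap 0 r t))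
        rw [← k, norm_mul, norm_mul (circleMap 0 r t), hb] at k3
        have k4 := mul_le_mul_of_nonneg_right k2 (norm_nonneg (u (circleMap 0 r t)))
        have k5 := mul_le_of_le_one_left (norm_nonneg (ev g (circleMap 0 r t))) b2.le
        rw [inv_pow, ← div_eq_inv_mul, le_div_iff₀ (by positivity), ← mul_pow]
        have k6 : ‖u (circleMap 0 r t)‖ * (r0 * δ) ≤ ‖a * ev g a‖ + ‖ev g (circleMap 0 r t)‖ := by
          linarith
        nlinarith [pow_le_pow_left₀ (by positivity) k6 2,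
          sq_nonneg (‖a * ev g a‖ - ‖ev g (circleMap 0 r t)‖)]
      · rw [intervalIntegral.integral_const_mul, intervalIntegral.integral_add
          (Continuous.intervalIntegrable (by fun_prop) _ _) intervalIntegrable_const,
          intervalIntegral.integral_const_mul, intervalIntegral.integral_const, sub_zero,
          smul_eq_mul]
        gcongr
        exact l2up (hs g) (sqle g) b0 b2
  refine ⟨f, cancel hT fun z hz => ?_⟩
  have k := e7 0 (by simp)
  rw [← hf 0 (by simp), ev_zero, hh] at k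
  rw [op f z hz, hf z hz, e7 z hz]
  linear_combination k

theorem nonemp {x : HH} (hx : DenseRange fun n : ℕ => (T ^ n) x) :
    ¬ ball 0 1 ⊆ (fun z => γ / z + φ z) '' (ball 0 1 \ {0}) := by
  intro hsub
  obtain ⟨-, i2, -⟩ := inv_an (isOpen_ball.sdiff isClosed_singleton) (an hφ) hi
  obtain ⟨ψ, hψ⟩ : ∃ ψ, ψ = Function.invFunOn (fun z => γ / z + φ z) (ball 0 1 \ {0}) := ⟨_, rfl⟩
  have p1 : DifferentiableOn ℂ ψ (ball 0 1) := hψ ▸ i2.differentiableOn.mono hsub
  have p2 : ∀ w, ‖w‖ < 1 → ψ w ∈ ball (0 : ℂ) 1 \ {0} := fun w hw =>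
    hψ ▸ Function.invFunOn_mem (hsub (mem_ball_zero_iff.2 hw))
  have p3 : ∀ w, ‖w‖ < 1 → γ / ψ w + φ (ψ w) = w := fun w hw =>
    hψ ▸ Function.invFunOn_eq (hsub (mem_ball_zero_iff.2 hw))
  have p4 : ∀ w, ‖w‖ < 1 → ‖ψ w‖ < 1 := fun w hw => mem_ball_zero_iff.1 (p2 w hw).1
  have q1 : ∀ g, DifferentiableOn ℂ (fun w => ev g (ψ w)) (ball 0 1) := fun g =>
    (ev_an g).differentiableOn.comp p1 fun w hw => (p2 w (mem_ball_zero_iff.1 hw)).1
  have q2 : ∀ g k, ‖co (fun w => ev g (ψ w)) k‖ ^ 2 ≤ (2 + 4 / (1 - ‖ψ 0‖ ^ 2)) * ‖g‖ ^ 2 :=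
    fun g k => lim1 one_pos (F := fun r => ‖co (fun w => ev g (ψ w)) k‖ ^ 2 * r ^ (2 * k))
      (by fun_prop) (by simp) fun r b0 _ b2 => by
        refine (Finset.single_le_sum (f := fun k => ‖co (fun w => ev g (ψ w)) k‖ ^ 2 * r ^ (2 * k))
          (fun _ _ => by positivity) (Finset.self_mem_range_succ k)).trans
          ((bes b0 b2 (q1 g) _).trans ?_)
        rw [inv_mul_le_iff₀ (by positivity)]
        exact litt g p1 p4 b0 b2
  have q3 : ∀ g k, co (fun w => ev (sh (T g)) (ψ w)) (k + 1) = co (fun w => ev (sh g) (ψ w)) k :=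
    fun g k => congrFun (uniq (e := fun k => Nat.casesOn k (-(γ * g 0))
      (co fun w => ev (sh g) (ψ w))) (fun w hw => co_sum (q1 _) hw) fun w hw => by
        rw [← hasSum_nat_add_iff' 1]
        have k1 := p3 w hw
        have k2 : ψ w ≠ 0 := (p2 w hw).2
        have : ev (sh (T g)) (ψ w) - ∑ i ∈ Finset.range 1, (Nat.casesOn i (-(γ * g 0))
            (co fun w => ev (sh g) (ψ w)) : ℂ) * w ^ i = w * ev (sh g) (ψ w) := by
          rw [ev_sh _ _ (p4 w hw), ev_sh _ _ (p4 w hw), hT _ _ (p4 w hw), Finset.sum_range_one]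
          field_simp at k1
          simp only [Nat.rec_zero]
          linear_combination ev g (ψ w) * k1
        rw [this]
        exact hcongr ((co_sum (q1 (sh g)) hw).mul_left w) fun n => by
          simp only; ring) (k + 1)
  have q4 : ∀ n k, co (fun w => ev (sh ((T ^ n) x)) (ψ w)) (k + n) =
      co (fun w => ev (sh x) (ψ w)) k := fun n k => by
    induction n with
    | zero => rfl
    | succ n ih => rw [pow_succ', mul_apply_eq_comp, ← add_assoc, q3, ih]
  have q5 : ∀ g, ‖sh g‖ ^ 2 = ‖g‖ ^ 2 := fun g => by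
    have := (hasSum_nat_add_iff' 1).2 (sqs (sh g))
    simpa [sh] using this.unique (sqs g)
  have q6 : ∀ k, co (fun w => ev (sh x) (ψ w)) k = 0 := fun k => by
    have := hx.induction_on (p := fun g => ‖co (fun w => ev (sh x) (ψ w)) k‖ ^ 2 ≤
      (2 + 4 / (1 - ‖ψ 0‖ ^ 2)) * ‖g‖ ^ 2) 0 (isClosed_le continuous_const (by fun_prop))
      fun n => by rw [← q4 n, ← q5]; exact q2 _ _
    simpa using this
  have q7 : x = 0 := ev_inj' (p4 0 (by simp)) (Eventually.frequently (by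
    have c1 := (an (γ := γ) hφ _ (p2 0 (by simp))).continuousAt
    have c2 := c1.eventually (isOpen_ball.mem_nhds (x := γ / ψ 0 + φ (ψ 0)) (by
      rw [p3 0 (by simp)]; exact mem_ball_self one_pos))
    filter_upwards [mem_nhdsWithin_of_mem_nhds c2, mem_nhdsWithin_of_mem_nhds
      ((isOpen_ball.sdiff isClosed_singleton).mem_nhds (p2 0 (by simp)))] with z h1 h2
    have k := (co_sum (q1 (sh x)) (mem_ball_zero_iff.1 h1)).unique (by
      simp only [q6, zero_mul]; exact hasSum_zero)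
    rw [hψ, hi.leftInvOn_invFunOn h2, ev_sh _ _ (mem_ball_zero_iff.1 h2.1)] at k
    exact (mul_eq_zero.1 k).resolve_left h2.2))
  have := hx.induction_on (p := fun g => g = 0) (lp.single 2 0 1) isClosed_singleton
    fun n => by simp [q7]
  simpa [this, ev] using ev_one 0

end

theorem main (γ : ℂ) (φ : ℂ → ℂ) (hφ : DifferentiableOn ℂ φ (ball 0 1)) (T : HH →L[ℂ] HH)
    (hT : ∀ (f : HH), ∀ z ∈ ball (0 : ℂ) 1, ∑' k, T f k * z ^ k =
      γ * ∑' k, f (k + 1) * z ^ k + φ z * ∑' k, f k * z ^ k)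
    (hc : ∃ x, DenseRange fun n : ℕ => (T ^ n) x) :
    ball 0 1 ∩ spectrum ℂ T = ball 0 1 ∩ ((fun z => γ / z + φ z) '' (ball 0 1 \ {0}))ᶜ ∧
      (ball 0 1 ∩ spectrum ℂ T).Nonempty := by
  obtain ⟨x, hx⟩ := hc
  have h1 : ∀ f z, ‖z‖ < 1 → z * ev (T f) z = (γ + z * φ z) * ev f z - γ * f 0 := fun f z hz => by
    have := shift_id f z hz
    rw [ev, hT f z (mem_ball_zero_iff.2 hz), ← ev]
    linear_combination γ * this
  have hγ : γ ≠ 0 := fun h => one_ne_zero ((ev_one 0).symm.trans (noadj hx (evL 0 (by simp)) (φ 0)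
    (fun f => (hT f 0 (by simp)).trans (by rw [h, zero_mul, zero_add]; rfl)) _))
  have hi : InjOn (fun z => γ / z + φ z) (ball 0 1 \ {0}) := fun a ha b hb e => by
    have a1 := mem_ball_zero_iff.1 ha.1
    have b1 := mem_ball_zero_iff.1 hb.1
    have := noadj hx (a • evL a a1 - b • evL b b1) (γ / a + φ a) (fun f => by
      change a * ev _ a - b * ev _ b = _ * (a * ev _ a - b * ev _ b)
      have a0 : a ≠ 0 := ha.2
      have b0 : b ≠ 0 := hb.2
      rw [h1 _ _ a1, h1 _ _ b1, mul_sub, show γ / a + φ a = γ / b + φ b from e]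
      nth_rewrite 1 [← show γ / a + φ a = γ / b + φ b from e]
      field_simp
      ring) (lp.single 2 0 1)
    change a * ev _ a - b * ev _ b = 0 at this
    simpa [ev_one, sub_eq_zero] using this
  have e : spectrum ℂ T = ((fun z => γ / z + φ z) '' (ball 0 1 \ {0}))ᶜ :=
    Subset.antisymm (fun l hl ⟨a, ha, k⟩ => not_spec h1 hφ hi hγ ha (by rwa [← k] at hl)) (in_spec h1 hγ)
  rw [e]
  obtain ⟨w, w1, w2⟩ := not_subset.1 (nonemp h1 hφ hi hx)
  exact ⟨rfl, w, w1, w2⟩

end Pool.Agent.H.MP_895317_an
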